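import Pool.Agent.helper60.EPT.Spec

set_option autoImplicit false

namespace Pool.Agent.EPT

open D

theorem GRA_cg {f g : D → D} (h : FP f) (he : ∀ x, g x = f x) : FP g := by
  rw [show g = f from funext he]
  exact h

theorem GRA_filter (P : D → Prop) [DecidablePred P] (Q : D → Prop) [DecidablePred Q] (l : List D)
    (h : ∀ a, P a ↔ Q a) : l.filter (fun a => decide (P a)) = l.filter (fun a => decide (Q a)) := by
  refine List.filter_congr ?_
  intro a _
  exact decide_eq_decide.2 (h a)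

theorem GRA_lv (hC : Cal) (hL : CalL) (hVCF : VCF_stmt) : FP fun x => lv x.fst x.snd := by
  obtain ⟨hvc, hst, hok, hcns⟩ := hVCF
  have hid := hC.id
  have h1 : FP fun z : D => zp z.snd z.fst := hL.zp _ _ (hC.snd _ hid) (hC.fst _ hid)
  have h2 : FP fun y : D => ofList (y.snd.toList.map fun a => zp (vc y.fst.snd) a) :=
    hL.map (fun z : D => zp z.snd z.fst) (fun y : D => y.snd) (fun y : D => vc y.fst.snd) h1
      (hC.snd _ hid) (hvc _ (hC.snd _ (hC.fst _ hid)))
  have h3 : FP fun y : D => ofList ((y.snd.toList.map fun a => zp (vc y.fst.snd) a).filter fun e => ok y.fst.snd e) := by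
    refine GRA_cg (hL.filter (fun z : D => tv (ok z.snd z.fst)) _
      (fun y : D => y.fst.snd) (hok _ _ (hC.snd _ hid) (hC.fst _ hid)) h2 (hC.snd _ (hC.fst _ hid))) ?_
    intro x
    refine congrArg ofList ?_
    rw [toList_ofList]
    refine GRA_filter _ _ _ ?_
    intro a
    rw [tv_ne_nil]
    exact Iff.rfl
  have h4 : FP fun y : D => ofList (((y.snd.toList.map fun a => zp (vc y.fst.snd) a).filter fun e => ok y.fst.snd e).map
      fun e => cons y.fst.fst e) := by
    refine GRA_cg (hL.map (fun z : D => cons z.snd z.fst) _ (fun y : D => y.fst.fst)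
      (hC.cons _ _ (hC.snd _ hid) (hC.fst _ hid)) h3 (hC.fst _ (hC.fst _ hid))) ?_
    intro x
    rw [toList_ofList]
    rfl
  refine GRA_cg (hL.flatMap _ (fun x : D => x.fst) (fun x : D => x.snd) h4 (hC.fst _ hid) (hC.snd _ hid)) ?_
  intro x
  simp only [toList_ofList]
  rfl

theorem GRA (hC : Cal) (hL : CalL) (hVCF : VCF_stmt) : GRA_stmt := by
  have hlv := GRA_lv hC hL hVCF
  refine ⟨hlv, ?_⟩
  obtain ⟨hvc, hst, hok, hcns⟩ := hVCF
  have hid := hC.id
  have h1 : FP fun x : D => ofList (x.fst.toList.map fun _ => nil) :=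
    hL.map (fun _ : D => nil) (fun x : D => x.fst) (fun x : D => x) (hC.const nil) (hC.fst _ hid) hid
  have h2 : FP fun x : D => ofList ((lv x.fst x.snd).toList.map st) :=
    hL.map (fun z : D => st z.fst) (fun x : D => lv x.fst x.snd) (fun x : D => x)
    (hst _ (hC.fst _ hid)) hlv hid
  -- input y = cons w u
  have h3 : FP fun y : D => tv (tv (tv (y.snd.fst = y.fst.fst) = nil) ≠ nil ∧ tv (cns y.snd.snd y.fst.snd) ≠ nil) :=
    hC.and (fun y : D => tv (tv (y.snd.fst = y.fst.fst) = nil)) (fun y : D => tv (cns y.snd.snd y.fst.snd))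
    (hC.not _ (hC.eq _ _ (hC.fst _ (hC.snd _ hid)) (hC.fst _ (hC.fst _ hid))))
    (hcns _ _ (hC.snd _ (hC.snd _ hid)) (hC.snd _ (hC.fst _ hid)))
  have h4 : FP fun y : D => cons (st y.snd) (st y.fst) :=
    hC.cons _ _ (hst _ (hC.snd _ hid)) (hst _ (hC.fst _ hid))
  have h5 : FP fun z : D => ofList (z.snd.toList.filter fun w => z.fst.fst ≠ w.fst ∧ cns z.fst.snd w.snd) := by
    refine GRA_cg (hL.filter _ (fun z : D => z.snd) (fun z : D => z.fst) h3 (hC.snd _ hid) (hC.fst _ hid)) ?_
    intro x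
    refine congrArg ofList ?_
    refine GRA_filter _ _ _ ?_
    intro a
    rw [tv_ne_nil, tv_ne_nil, tv_eq_nil, tv_ne_nil]
    exact Iff.rfl
  have h6 : FP fun z : D => ofList ((z.snd.toList.filter fun w => z.fst.fst ≠ w.fst ∧ cns z.fst.snd w.snd).map
      fun w => cons (st z.fst) (st w)) := by
    refine GRA_cg (hL.map _ _ (fun z : D => z.fst) h4 h5 (hC.fst _ hid)) ?_
    intro x
    rw [toList_ofList]
    rfl
  have h7 : FP fun x : D => ofList ((lv x.fst x.snd).toList.flatMap fun u =>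
      ((lv x.fst x.snd).toList.filter fun w => u.fst ≠ w.fst ∧ cns u.snd w.snd).map fun w => cons (st u) (st w)) := by
    refine GRA_cg (hL.flatMap _ (fun x : D => lv x.fst x.snd) (fun x : D => lv x.fst x.snd) h6 hlv hlv) ?_
    intro x
    simp only [toList_ofList]
    rfl
  exact hC.cons _ _ h1 (hC.cons _ _ h2 h7)

end Pool.Agent.EPT
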